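import Pool.Agent.H66.ER2.Targets
import Pool.Agent.H66.ER2.Lib

/-!
# G3A: case 3 of the theorem on good pairs (board er2_modules, helper42)
-/

set_option autoImplicit false

namespace Pool.Agent.H42.ER2

open Pool.Agent.H48.ER Pool.Agent.H52.ER2 Pool.Agent.H66.ER2

variable {V : Type} {G : SimpleGraph V} {v : V} {k : ℕ} {z : ℕ → V} {l r n m : ℕ}
  {a1 x b1 y y' a2 b2 a3 b3 : V} {L R P Q R' : Set V}

theorem g3x_swap (h : G3x G v k z l r n m a1 x b1 y y' a2 b2 a3 b3 L R P Q R') :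
    G3x G v k z l r m n a1 x b1 y y' a3 b3 a2 b2 L R Q P R' where
  g :=
    { cls := h.g.cls
      nco := h.g.nco
      f1 := h.g.f1
      so := h.g.so
      sp := h.g.sp.swap
      hx := h.g.hx
      hy := h.g.hy
      nv := by rw [vS_swap]; exact h.g.nv
      t0 := by rw [vS_swap]; exact h.g.t0 }
  hl := h.hl
  h2 := h.h3
  h3 := h.h2
  hy' := h.hy'
  ipR' := h.ipR'
  hR' := h.hR'
  nR' := h.nR'
  onA := by
    rw [vS_swap]
    intro w hw h1
    rcases h.onA w hw h1 with h | h | h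
    · exact Or.inl h
    · exact Or.inr (Or.inr h)
    · exact Or.inr (Or.inl h)
  onB := by rw [vS_swap]; exact h.onB

theorem exists_max (n : ℕ) (Pr : ℕ → Prop) (h : ∃ i, i ≤ n ∧ Pr i) :
    ∃ i, i ≤ n ∧ Pr i ∧ ∀ i', i < i' → i' ≤ n → ¬ Pr i' := by
  classical
  obtain ⟨i, hi, hp⟩ := h
  exact ⟨Nat.findGreatest Pr n, Nat.findGreatest_le n, Nat.findGreatest_spec hi hp,
    fun i' h1 h2 => Nat.findGreatest_is_greatest h1 h2⟩

theorem exists_min (n : ℕ) (Pr : ℕ → Prop) (h : ∃ i, i ≤ n ∧ Pr i) :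
    ∃ i, i ≤ n ∧ Pr i ∧ ∀ i', i' < i → ¬ Pr i' := by
  classical
  obtain ⟨i, hi, hp⟩ := h
  exact ⟨Nat.find ⟨i, hp⟩, (Nat.find_min' ⟨i, hp⟩ hp).trans hi, Nat.find_spec ⟨i, hp⟩,
    fun i' h1 => Nat.find_min _ h1⟩

section facts

variable (h : G3x G v k z l r n m a1 x b1 y y' a2 b2 a3 b3 L R P Q R')

include h

theorem a1_eq : a1 = x := by
  have h1 := h.g.sp.ipL
  rw [h.hl] at h1
  exact h1.eq_of_zero.1

theorem z1_a1 : G.Adj (z 1) a1 := by
  rw [a1_eq h]
  exact h.g.hx.2.1.symm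

theorem z1_a2 : G.Adj (z 1) a2 := h.h2.2.1.symm

theorem z1_a3 : G.Adj (z 1) a3 := h.h3.2.1.symm

theorem v_z1 (hk : 4 ≤ k) : ¬ G.Adj v (z 1) := (h.g.so.int 1 (by omega) (by omega)).2

theorem z1_notP (hk : 4 ≤ k) : z 1 ∉ P := by
  intro hz
  rcases (h.g.sp.ePQ _ hz _ h.g.sp.a3_mem).1 (z1_a3 h) with ⟨e, _⟩ | ⟨_, e⟩
  · exact v_z1 h hk (e ▸ h.h2.1)
  · exact h.g.sp.ipQ.ne h.g.sp.oQ.pos e

theorem z1_notR : z 1 ∉ R := fun hz => h.g.sp.eLR _ h.g.sp.a1_mem _ hz (z1_a1 h).symm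

theorem R'_sub {w : V} (hw : w ∈ R') : w ∈ R := by
  rw [h.hR']
  exact Or.inr hw

theorem star (hk : 4 ≤ k) (w : V) (hw : w ∈ vS L R P Q) (hv : G.Adj v w) (h1 : w ≠ a1)
    (h2 : w ≠ a2) (h3 : w ≠ a3) : ¬ G.Adj (z 1) w := by
  intro hz
  by_cases hB : w ∈ sB G v k z
  · exact hB.2.2 1 (by omega) (by omega) hz.symm
  · by_cases hA : w ∈ sA G v k z
    · rcases h.onA w hw hA with e | e | e
      · exact h1 e
      · exact h2 e
      · exact h3 e
    · exact h.g.t0 w hw hv hA hB (z 1) ⟨1, by omega, by omega, rfl⟩ hz.symm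

theorem vb1 (hk : 4 ≤ k) (hz : G.Adj (z 1) b1) : ¬ G.Adj v b1 := by
  intro hv
  refine star h hk b1 ?_ hv ?_ ?_ ?_ hz
  · exact Or.inl (Or.inl (Or.inr h.g.sp.b1_mem))
  · intro e
    exact Set.disjoint_left.1 h.g.sp.dLR h.g.sp.a1_mem (e ▸ h.g.sp.b1_mem)
  · intro e
    exact Set.disjoint_left.1 h.g.sp.dRP h.g.sp.b1_mem (e ▸ h.g.sp.a2_mem)
  · intro e
    exact Set.disjoint_left.1 h.g.sp.dRQ h.g.sp.b1_mem (e ▸ h.g.sp.a3_mem)

theorem vb2 (hk : 4 ≤ k) (hz : G.Adj (z 1) b2) : ¬ G.Adj v b2 := by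
  intro hv
  refine star h hk b2 ?_ hv ?_ ?_ ?_ hz
  · exact Or.inl (Or.inr h.g.sp.b2_mem)
  · intro e
    exact Set.disjoint_left.1 h.g.sp.dLP h.g.sp.a1_mem (e ▸ h.g.sp.b2_mem)
  · exact (h.g.sp.ipP.ne h.g.sp.oP.pos).symm
  · intro e
    exact Set.disjoint_left.1 h.g.sp.dPQ h.g.sp.b2_mem (e ▸ h.g.sp.a3_mem)

theorem par_A (hk : 4 ≤ k) (hT : Two G v b1 b2 b3) {p : ℕ → V} (hp : PF G n p)
    (pn : p n = b2) (hP : P = seg p 0 n) {q : ℕ → V} (hq : PF G (r - 1) q)
    (q0 : q 0 = b1) (hR' : R' = seg q 0 (r - 1)) {i j : ℕ} (hi : i ≤ n)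
    (hzi : G.Adj (z 1) (p i)) (hmax : ∀ i', i < i' → i' ≤ n → ¬ G.Adj (z 1) (p i'))
    (hj : j ≤ r - 1) (hzj : G.Adj (z 1) (q j)) (hmin : ∀ j', j' < j → ¬ G.Adj (z 1) (q j')) :
    Odd (n - i + j) := by
  have hsP : ∀ w ∈ seg p i n, w ∈ P := by
    rintro w ⟨t, _, ht, rfl⟩
    rw [hP]
    exact mem_seg (Nat.zero_le _) ht
  have hsR : ∀ w ∈ seg q 0 j, w ∈ R := by
    rintro w ⟨t, _, ht, rfl⟩
    refine R'_sub h ?_
    rw [hR']
    exact mem_seg (Nat.zero_le _) (ht.trans hj)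
  have path := (hp.seg hi le_rfl).append (hq.seg (Nat.zero_le j) hj)
    (Set.disjoint_left.2 fun w h1 h2 =>
      Set.disjoint_left.1 h.g.sp.dRP (hsR w h2) (hsP w h1))
    (fun u hu w hw => by
      rw [SimpleGraph.adj_comm, h.g.sp.eRP w (hsR w hw) u (hsP u hu), pn, q0]
      exact and_comm)
  have h2 : 2 ≤ n - i + (j - 0) + 1 := by
    by_contra hc
    have e1 : i = n := by omega
    have e2 : j = 0 := by omega
    rw [e1, pn] at hzi
    rw [e2, q0] at hzj
    have c1 := vb1 h hk hzj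
    have c2 := vb2 h hk hzi
    rcases hT with ⟨h1, _⟩ | ⟨h1, _⟩ | ⟨h1, _⟩
    · exact c1 h1
    · exact c1 h1
    · exact c2 h1
  have hE := h.g.cls.noh _ _ _ (z 1) _ path h2 (by
    rintro (hw | hw)
    · exact z1_notP h hk (hsP _ hw)
    · exact z1_notR h (hsR _ hw)) hzi hzj (by
    rintro w (⟨t, h1, h3, rfl⟩ | ⟨t, h1, h3, rfl⟩) hw
    · left
      by_cases e : i = t
      · rw [e]
      · exact absurd hw (hmax t (by omega) h3)
    · right
      by_cases e : t = j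
      · rw [e]
      · exact absurd hw (hmin t (by omega)))
  obtain ⟨t, ht⟩ := hE
  exact ⟨t - 1, by omega⟩

theorem par_B (hOGE : T_OGE) (hk : 4 ≤ k) {p : ℕ → V} (hp : PF G n p)
    (p0 : p 0 = a2) (pn : p n = b2) (hP : P = seg p 0 n) {q : ℕ → V} (hq : PF G (r - 1) q)
    (q0 : q 0 = b1) (qn : q (r - 1) = y') (hR' : R' = seg q 0 (r - 1)) {i : ℕ} (hi : i ≤ n)
    (hzi : G.Adj (z 1) (p i)) (hmax : ∀ i', i < i' → i' ≤ n → ¬ G.Adj (z 1) (p i'))
    (hno : ∀ j, j ≤ r - 1 → ¬ G.Adj (z 1) (q j)) : Odd (n - i) := by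
  by_cases hi0 : i = 0
  · rw [hi0]
    exact h.g.sp.oP
  have hsP : ∀ w ∈ seg p i n, w ∈ P := by
    rintro w ⟨t, _, ht, rfl⟩
    rw [hP]
    exact mem_seg (Nat.zero_le _) ht
  have hsR' : ∀ w ∈ seg q 0 (r - 1), w ∈ R' := by
    intro w hw
    rw [hR']
    exact hw
  have hsR : ∀ w ∈ seg q 0 (r - 1), w ∈ R := fun w hw => R'_sub h (hsR' w hw)
  have hna2 : ∀ w ∈ seg p i n, w ≠ a2 := by
    rintro w ⟨t, h1, h2, rfl⟩ e
    rw [← p0] at e
    have := hp.inj _ _ h2 (Nat.zero_le _) e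
    omega
  have hna1 : ∀ w ∈ seg p i n ∪ seg q 0 (r - 1), w ≠ a1 := by
    rintro w (hw | hw) e
    · exact Set.disjoint_left.1 h.g.sp.dLP (e ▸ h.g.sp.a1_mem) (hsP w hw)
    · exact Set.disjoint_left.1 h.g.sp.dLR (e ▸ h.g.sp.a1_mem) (hsR w hw)
  have path := (hp.seg hi le_rfl).append (hq.seg (Nat.zero_le (r - 1)) le_rfl)
    (Set.disjoint_left.2 fun w h1 h2 =>
      Set.disjoint_left.1 h.g.sp.dRP (hsR w h2) (hsP w h1))
    (fun u hu w hw => by
      rw [SimpleGraph.adj_comm, h.g.sp.eRP w (hsR w hw) u (hsP u hu), pn, q0]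
      exact and_comm)
  have hz1 : z 1 ∉ seg p i n ∪ seg q 0 (r - 1) := by
    rintro (hw | hw)
    · exact z1_notP h hk (hsP _ hw)
    · exact z1_notR h (hsR _ hw)
  have path2 := path.cons (u := z 1) hz1 (by
    rintro w (⟨t, h1, h3, rfl⟩ | ⟨t, h1, h3, rfl⟩)
    · constructor
      · intro hw
        by_cases e : i = t
        · rw [e]
        · exact absurd hw (hmax t (by omega) h3)
      · intro e
        rw [e]
        exact hzi
    · constructor
      · intro hw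
        exact absurd hw (hno t h3)
      · intro e
        rw [e]
        exact hzi)
  have hz1' : z 1 ≠ a1 := (z1_a1 h).ne
  have path3 := path2.cons (u := a1) (by
    rintro (e | hw)
    · exact hz1' e.symm
    · exact hna1 _ hw rfl) (by
    intro w hw
    rcases hw with e | hw | hw
    · rw [e]
      exact ⟨fun _ => rfl, fun _ => (z1_a1 h).symm⟩
    · constructor
      · intro ha
        exact absurd ((h.g.sp.eLP a1 h.g.sp.a1_mem w (hsP w hw)).1 ha).2 (hna2 w hw)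
      · intro e
        exact absurd (e ▸ Or.inl hw) hz1
    · constructor
      · intro ha
        exact absurd ha (h.g.sp.eLR a1 h.g.sp.a1_mem w (hsR w hw))
      · intro e
        exact absurd (e ▸ Or.inr hw) hz1)
  rw [qn] at path3
  have og : Og G v k z _ a1 y' _ :=
    { ip := path3
      inA := by rw [a1_eq h]; exact h.g.hx
      inB := h.hy'
      onlyA := by
        intro w hw hA
        rcases hw with e | e | hw | hw
        · exact e
        · rw [e] at hA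
          exact absurd hA.1 (v_z1 h hk)
        · rcases h.onA w (Or.inl (Or.inr (hsP w hw))) hA with e | e | e
          · exact e
          · exact absurd e (hna2 w hw)
          · exact absurd (e ▸ h.g.sp.a3_mem) (Set.disjoint_left.1 h.g.sp.dPQ (hsP w hw))
        · rcases h.onA w (Or.inl (Or.inl (Or.inr (hsR w hw)))) hA with e | e | e
          · exact e
          · exact absurd (e ▸ h.g.sp.a2_mem) (Set.disjoint_left.1 h.g.sp.dRP (hsR w hw))
          · exact absurd (e ▸ h.g.sp.a3_mem) (Set.disjoint_left.1 h.g.sp.dRQ (hsR w hw))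
      onlyB := by
        intro w hw hB
        rcases hw with e | e | hw | hw
        · rcases h.onB w (by rw [e]; exact Or.inl (Or.inl (Or.inl h.g.sp.a1_mem))) hB with e' | e'
          · rw [e] at e'
            exact absurd (e' ▸ h.g.sp.y_mem)
              (Set.disjoint_left.1 h.g.sp.dLR h.g.sp.a1_mem)
          · exact e'
        · rw [e] at hB
          exact absurd hB.1 (v_z1 h hk)
        · rcases h.onB w (Or.inl (Or.inr (hsP w hw))) hB with e' | e'
          · exact absurd (hsP w hw) (Set.disjoint_left.1 h.g.sp.dRP (e' ▸ h.g.sp.y_mem))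
          · exact e'
        · rcases h.onB w (Or.inl (Or.inl (Or.inr (hsR w hw)))) hB with e' | e'
          · exact absurd (e' ▸ hsR' w hw) h.nR'
          · exact e' }
  have hE := hOGE V G v k z _ a1 y' _ h.g.cls h.g.nco h.g.f1 h.g.so og
  obtain ⟨t, ht⟩ := hE
  obtain ⟨s, hs⟩ := h.g.sp.oLR
  have hl := h.hl
  exact ⟨t - s - 2, by omega⟩

end facts

theorem pf_G3A (_hHOL : T_HOL) (_hEVN : T_EVN) (hOUE : T_OUE) (_hFAB : T_FAB) (hGMJ : T_GMJ)
    (hOGE : T_OGE) : T_G3A := by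
  intro V G v k z l r n m a1 x b1 y y' a2 b2 a3 b3 L R P Q R' h
  have hk : 4 ≤ k := (hOUE V G v k z h.g.cls.noh h.g.f1 h.g.so.toOu).2
  have hT : Two G v b1 b2 b3 := (hGMJ V G v k z l r n m a1 x b1 y a2 b2 a3 b3 L R P Q h.g).2
  have h' := g3x_swap h
  have hzP := z1_notP h hk
  have hzQ := z1_notP h' hk
  obtain ⟨p, hp, p0, pn, hP⟩ := IP.pf h.g.sp.ipP
  obtain ⟨q, hq, q0, qn, hQ⟩ := IP.pf h.g.sp.ipQ
  obtain ⟨s, hs, s0, sn, hR'⟩ := IP.pf h.ipR'
  obtain ⟨i, hi, hzi, himax⟩ := exists_max n (fun i => G.Adj (z 1) (p i))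
    ⟨0, Nat.zero_le _, by rw [p0]; exact z1_a2 h⟩
  obtain ⟨j, hj, hzj, hjmax⟩ := exists_max m (fun i => G.Adj (z 1) (q i))
    ⟨0, Nat.zero_le _, by rw [q0]; exact z1_a3 h⟩
  have hpar : Even ((n - i) + (m - j)) := by
    by_cases hex : ∃ t, t ≤ r - 1 ∧ G.Adj (z 1) (s t)
    · obtain ⟨t, ht, hzt, htmin⟩ := exists_min (r - 1) (fun t => G.Adj (z 1) (s t)) hex
      obtain ⟨c, hc⟩ := par_A h hk hT hp pn hP hs s0 hR' hi hzi himax ht hzt htmin
      obtain ⟨d, hd⟩ := par_A h' hk hT.comm23 hq qn hQ hs s0 hR' hj hzj hjmax ht hzt htmin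
      exact ⟨c + d + 1 - t, by omega⟩
    · push Not at hex
      obtain ⟨c, hc⟩ := par_B h hOGE hk hp p0 pn hP hs s0 sn hR' hi hzi himax hex
      obtain ⟨d, hd⟩ := par_B h' hOGE hk hq q0 qn hQ hs s0 sn hR' hj hzj hjmax hex
      exact ⟨c + d + 1, by omega⟩
  have hij : i = 0 ∧ j = 0 := by
    by_contra hne
    have hsP : ∀ w ∈ seg p i n, w ∈ P := by
      rintro w ⟨t, _, ht, rfl⟩
      rw [hP]
      exact mem_seg (Nat.zero_le _) ht
    have hsQ : ∀ w ∈ seg q j m, w ∈ Q := by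
      rintro w ⟨t, _, ht, rfl⟩
      rw [hQ]
      exact mem_seg (Nat.zero_le _) ht
    have path := (hp.seg hi le_rfl).append (hq.seg hj le_rfl).rev
      (Set.disjoint_left.2 fun w h1 h2 =>
        Set.disjoint_left.1 h.g.sp.dPQ (hsP w h1) (hsQ w h2))
      (fun u hu w hw => by
        rw [h.g.sp.ePQ u (hsP u hu) w (hsQ w hw), pn, qn]
        constructor
        · rintro (⟨e1, e2⟩ | hh)
          · exfalso
            apply hne
            obtain ⟨t, h1, h2, rfl⟩ := hu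
            obtain ⟨t', h3, h4, rfl⟩ := hw
            rw [← p0] at e1
            rw [← q0] at e2
            have c1 := hp.inj _ _ h2 (Nat.zero_le _) e1
            have c2 := hq.inj _ _ h4 (Nat.zero_le _) e2
            omega
          · exact hh
        · intro hh
          exact Or.inr hh)
    have h2 : 2 ≤ n - i + (m - j) + 1 := by
      by_contra hc
      have e1 : i = n := by omega
      have e2 : j = m := by omega
      rw [e1, pn] at hzi
      rw [e2, qn] at hzj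
      have c1 := vb2 h hk hzi
      have c2 := vb2 h' hk hzj
      rcases hT with ⟨_, h1⟩ | ⟨_, h1⟩ | ⟨h1, _⟩
      · exact c1 h1
      · exact c2 h1
      · exact c1 h1
    have hE := h.g.cls.noh _ _ _ (z 1) _ path h2 (by
      rintro (hw | hw)
      · exact hzP (hsP _ hw)
      · exact hzQ (hsQ _ hw)) hzi hzj (by
      rintro w (⟨t, h1, h3, rfl⟩ | ⟨t, h1, h3, rfl⟩) hw
      · left
        by_cases e : i = t
        · rw [e]
        · exact absurd hw (himax t (by omega) h3)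
      · right
        by_cases e : j = t
        · rw [e]
        · exact absurd hw (hjmax t (by omega) h3))
    obtain ⟨c, hc⟩ := hE
    obtain ⟨d, hd⟩ := hpar
    omega
  obtain ⟨i0, j0⟩ := hij
  refine ⟨fun hw => hw.elim hzP hzQ, ?_⟩
  rintro w (hw | hw)
  · constructor
    · intro hz
      left
      rw [hP] at hw
      obtain ⟨t, _, ht, rfl⟩ := hw
      by_cases e : t = 0
      · rw [e, p0]
      · exact absurd hz (himax t (by omega) ht)
    · rintro (e | e)
      · rw [e]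
        exact z1_a2 h
      · rw [e]
        exact z1_a3 h
  · constructor
    · intro hz
      right
      rw [hQ] at hw
      obtain ⟨t, _, ht, rfl⟩ := hw
      by_cases e : t = 0
      · rw [e, q0]
      · exact absurd hz (hjmax t (by omega) ht)
    · rintro (e | e)
      · rw [e]
        exact z1_a2 h
      · rw [e]
        exact z1_a3 h

end Pool.Agent.H42.ER2
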